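import Pool.Agent.Q261.OP.Wr

/-!
Large powers of pairwise non-proportional polynomials are linearly independent.
-/

open Polynomial Finset

namespace Q261.OP

variable {K : Type*} [Field K] [CharZero K]

theorem core {m : ℕ} (hm : 1 ≤ m) (d : ℕ) (hd : m ^ 2 ≤ d) (h : Fin (m + 1) → K[X])
    (hne : ∀ i, h i ≠ 0)
    (e : Fin (m + 1) → K) (he : ∀ i, e i ≠ 0) (hsum : ∑ i, C (e i) * h i ^ d = 0)
    (hli : LinearIndependent K (fun b : Fin m => h b.succ ^ d))
    (hspan : Ideal.span (Set.range h) = ⊤) : ∀ i, (h i).natDegree = 0 := by
  classical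
  set D : ℕ := d - (m - 1) with hD
  set M : Matrix (Fin (m + 1)) (Fin m) K[X] :=
    Matrix.of fun i l => derivative^[(l : ℕ)] (C (e i) * h i ^ d) with hM
  have hrow : ∑ j, M j = 0 := by
    funext l
    have h0 : (∑ j, M j) l = ∑ j, M j l := Finset.sum_apply (M := fun _ : Fin m => K[X]) l Finset.univ M
    refine h0.trans ?_
    simp only [hM, Matrix.of_apply, Pi.zero_apply]
    rw [← iterate_derivative_sum, hsum, iterate_derivative_zero]
  have hminor : ∀ j : Fin (m + 1), (M.submatrix (Fin.succAbove 0) id).det =
      (M.submatrix (Fin.succAbove j) id).det ∨ (M.submatrix (Fin.succAbove 0) id).det =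
      - (M.submatrix (Fin.succAbove j) id).det := by
    intro j
    have := Matrix.submatrix_succAbove_det_eq_negOnePow_submatrix_succAbove_det M hrow 0 j
    rw [this]
    rcases Int.units_eq_one_or (Int.negOnePow (((0 : Fin (m + 1)) : ℕ) - ((j : Fin (m + 1)) : ℕ))) with h1 | h1
    · left
      rw [h1, one_smul]
    · right
      rw [h1]
      simp
  set W : K[X] := (M.submatrix (Fin.succAbove 0) id).det with hW
  -- nonzero
  have hW0 : W ≠ 0 := by
    have h1 : LinearIndependent K (fun b : Fin m => C (e b.succ) * h b.succ ^ d) := by
      have h2 := hli.units_smul (fun b : Fin m => Units.mk0 (e b.succ) (he _))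
      convert h2 using 1
      funext b
      rw [Pi.smul_apply', Units.smul_def, Units.val_mk0, smul_eq_C_mul]
    have h2 := wmat_det_ne_zero _ h1
    have h3 : M.submatrix (Fin.succAbove 0) id =
        (wmat (fun b : Fin m => C (e b.succ) * h b.succ ^ d)).transpose := by
      ext b l : 2
      simp only [hM, wmat, Matrix.submatrix_apply, Matrix.of_apply, Matrix.transpose_apply, id,
        Fin.succAbove_zero]
    rw [hW, h3, Matrix.det_transpose]
    exact h2
  -- degree
  have hdeg : ∀ j : Fin (m + 1), W.natDegree ≤ ∑ b : Fin m, d * (h (j.succAbove b)).natDegree := by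
    intro j
    have h1 : W.natDegree = (M.submatrix (Fin.succAbove j) id).det.natDegree := by
      rcases hminor j with h1 | h1
      · rw [h1]
      · rw [h1, natDegree_neg]
    rw [h1, Matrix.det_apply]
    apply natDegree_sum_le_of_forall_le
    intro σ _
    refine (natDegree_smul_le _ _).trans ?_
    refine (natDegree_prod_le _ _).trans ?_
    rw [← Equiv.sum_comp σ (fun b : Fin m => d * (h (j.succAbove b)).natDegree)]
    apply Finset.sum_le_sum
    intro b _
    simp only [hM, Matrix.submatrix_apply, Matrix.of_apply, id]
    refine (natDegree_iterate_derivative _ _).trans ?_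
    refine (Nat.sub_le _ _).trans ?_
    refine (natDegree_C_mul_le _ _).trans ?_
    exact natDegree_pow_le
  -- divisibility
  have hdiv : ∀ j : Fin (m + 1), (∏ b : Fin m, h (j.succAbove b) ^ D) ∣ W := by
    intro j
    have h1 : (∏ b : Fin m, h (j.succAbove b) ^ D) ∣ (M.submatrix (Fin.succAbove j) id).det := by
      have h2 : ∀ (b : Fin m) (l : Fin m), ∃ q : K[X],
          (M.submatrix (Fin.succAbove j) id) b l = h (j.succAbove b) ^ D * q := by
        intro b l
        simp only [hM, Matrix.submatrix_apply, Matrix.of_apply, id]
        rw [iterate_derivative_C_mul]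
        have h3 : h (j.succAbove b) ^ D ∣ derivative^[(l : ℕ)] (h (j.succAbove b) ^ d) := by
          refine (pow_dvd_pow _ ?_).trans (pow_sub_dvd_iterate_derivative_pow _ d l)
          have := l.2
          omega
        exact h3.mul_left _
      choose q hq using h2
      have h3 : M.submatrix (Fin.succAbove j) id =
          Matrix.of (fun b l => (fun b => h (j.succAbove b) ^ D) b * (Matrix.of q) b l) := by
        ext b l : 2
        rw [hq]
        rfl
      rw [h3, Matrix.det_mul_column]
      exact dvd_mul_right _ _
    rcases hminor j with h2 | h2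
    · rw [h2]; exact h1
    · rw [h2]; exact (dvd_neg).2 h1
  have hP : (∏ i, h i ^ D) ∣ W := by
    have h1 : Ideal.span (Set.range (fun i => h i ^ D)) = ⊤ := by
      have := Ideal.span_pow_eq_top (Set.range h) hspan D
      rwa [← Set.range_comp] at this
    have h2 : (1 : K[X]) ∈ Ideal.span (Set.range (fun i => h i ^ D)) := by
      rw [h1]; exact Submodule.mem_top
    rw [Ideal.mem_span_range_iff_exists_fun] at h2
    obtain ⟨a, ha⟩ := h2
    have h3 : W = ∑ i, a i * (h i ^ D * W) := by
      calc W = 1 * W := (one_mul _).symm
        _ = (∑ i, a i * h i ^ D) * W := by rw [ha]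
        _ = _ := by
          rw [Finset.sum_mul]
          exact Finset.sum_congr rfl fun i _ => by ring
    rw [h3]
    apply Finset.dvd_sum
    intro i _
    apply Dvd.dvd.mul_left
    rw [Fin.prod_univ_succAbove _ i]
    exact mul_dvd_mul_left _ (hdiv i)
  have hPdeg : ∑ i, D * (h i).natDegree ≤ W.natDegree := by
    have h1 := natDegree_le_of_dvd hP hW0
    rw [natDegree_prod _ _ (fun i _ => pow_ne_zero _ (hne i))] at h1
    simpa [natDegree_pow] using h1
  have hkey : ∀ j : Fin (m + 1), D * (∑ i, (h i).natDegree) + d * (h j).natDegree ≤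
      d * ∑ i, (h i).natDegree := by
    intro j
    have h1 := hPdeg.trans (hdeg j)
    rw [← Finset.mul_sum, ← Finset.mul_sum] at h1
    have h2 := Fin.sum_univ_succAbove (fun i => (h i).natDegree) j
    calc _ ≤ d * ∑ b : Fin m, (h (j.succAbove b)).natDegree + d * (h j).natDegree := by
          exact Nat.add_le_add_right h1 _
      _ = d * ∑ i, (h i).natDegree := by rw [h2]; ring
  set SS : ℕ := ∑ i, (h i).natDegree with hSS
  have hall : (m + 1) * (D * SS) + d * SS ≤ (m + 1) * (d * SS) := by
    have h1 := Finset.sum_le_sum (fun j (_ : j ∈ (Finset.univ : Finset (Fin (m + 1)))) => hkey j)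
    rw [Finset.sum_add_distrib, ← Finset.mul_sum (f := fun j => (h j).natDegree)] at h1
    simpa using h1
  have hSS0 : SS = 0 := by
    by_contra hne0
    have hpos : 0 < SS := Nat.pos_of_ne_zero hne0
    have h1 : (m + 1) * D + d ≤ (m + 1) * d := by
      have h2 : ((m + 1) * D + d) * SS ≤ ((m + 1) * d) * SS := by
        calc _ = (m + 1) * (D * SS) + d * SS := by ring
          _ ≤ (m + 1) * (d * SS) := hall
          _ = _ := by ring
      exact Nat.le_of_mul_le_mul_right h2 hpos
    have hDd : D + (m - 1) = d := by
      rw [hD]
      have : m ≤ m ^ 2 := Nat.le_self_pow (by norm_num) m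
      omega
    obtain ⟨k, rfl⟩ : ∃ k, m = k + 1 := ⟨m - 1, by omega⟩
    simp only [Nat.add_sub_cancel] at hDd
    nlinarith
  intro i
  have := (Finset.sum_eq_zero_iff.1 (hSS ▸ hSS0)) i (Finset.mem_univ _)
  exact this

/-- `s` polynomials, no two of them proportional: their `d`-th powers are linearly independent
for `d ≥ s ^ 2`. -/
theorem indep_fin : ∀ (s : ℕ) (f : Fin s → K[X]) (_ : ∀ i, f i ≠ 0)
    (_ : ∀ i j, i ≠ j → ∀ c : K, f i ≠ C c * f j) (d : ℕ) (_ : s ^ 2 ≤ d),
    LinearIndependent K (fun i => f i ^ d) := by
  intro s
  induction s with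
  | zero => intro f _ _ d _; exact linearIndependent_empty_type
  | succ m ih =>
    intro f hne hprop d hd
    have hsub : ∀ j : Fin (m + 1), LinearIndependent K (fun b : Fin m => f (j.succAbove b) ^ d) := by
      intro j
      apply ih (fun b => f (j.succAbove b)) (fun b => hne _)
        (fun a b hab c => hprop _ _ (fun h => hab (Fin.succAbove_right_injective h)) c) d
      exact (Nat.pow_le_pow_left (Nat.le_succ m) 2).trans hd
    rw [Fintype.linearIndependent_iff]
    intro c hc
    by_contra hcon
    push Not at hcon
    obtain ⟨i0, hi0⟩ := hcon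
    by_cases hz : ∃ j, c j = 0
    · obtain ⟨j, hj⟩ := hz
      rw [Fin.sum_univ_succAbove _ j, hj, zero_smul, zero_add] at hc
      have h1 := Fintype.linearIndependent_iff.1 (hsub j) (fun b => c (j.succAbove b)) hc
      have hij : i0 ≠ j := fun h => hi0 (h ▸ hj)
      obtain ⟨b, hb⟩ := Fin.exists_succAbove_eq hij
      exact hi0 (hb ▸ h1 b)
    · push Not at hz
      rcases Nat.eq_zero_or_pos m with hm0 | hm
      · subst hm0
        simp only [Nat.reduceAdd, univ_unique, sum_singleton, smul_eq_zero] at hc
        rcases hc with h1 | h1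
        · exact hz _ h1
        · exact hne _ (pow_eq_zero_iff (by omega) |>.1 h1)
      · -- remove the common factor
        set I : Ideal K[X] := Ideal.span (Set.range f) with hI
        set g : K[X] := Submodule.IsPrincipal.generator I with hg
        have hspan : Ideal.span {g} = I := Ideal.span_singleton_generator I
        have hgdvd : ∀ i, ∃ h : K[X], f i = g * h := by
          intro i
          have : f i ∈ I := Ideal.subset_span ⟨i, rfl⟩
          rw [← hspan, Ideal.mem_span_singleton] at this
          exact this
        choose h hh using hgdvd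
        have hg0 : g ≠ 0 := by
          intro h0
          apply hne 0
          rw [hh 0, h0, zero_mul]
        have hh0 : ∀ i, h i ≠ 0 := by
          intro i h0
          apply hne i
          rw [hh i, h0, mul_zero]
        have hsp : Ideal.span (Set.range h) = ⊤ := by
          have h1 : g ∈ I := by rw [← hspan]; exact Ideal.mem_span_singleton_self g
          rw [hI, Ideal.mem_span_range_iff_exists_fun] at h1
          obtain ⟨a, ha⟩ := h1
          have h2 : ∑ i, a i * h i = 1 := by
            apply mul_left_cancel₀ hg0
            rw [mul_one, Finset.mul_sum]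
            conv_rhs => rw [← ha]
            exact Finset.sum_congr rfl fun i _ => by rw [hh i]; ring
          rw [Ideal.eq_top_iff_one, Ideal.mem_span_range_iff_exists_fun]
          exact ⟨a, h2⟩
        have hsum : ∑ i, C (c i) * h i ^ d = 0 := by
          have h1 : g ^ d * ∑ i, C (c i) * h i ^ d = 0 := by
            rw [← hc, Finset.mul_sum]
            refine Finset.sum_congr rfl fun i _ => ?_
            rw [smul_eq_C_mul, hh i]
            ring
          exact (mul_eq_zero.1 h1).resolve_left (pow_ne_zero _ hg0)
        have hli : LinearIndependent K (fun b : Fin m => h b.succ ^ d) := by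
          rw [Fintype.linearIndependent_iff]
          intro v hv
          apply Fintype.linearIndependent_iff.1 (hsub 0) v
          have : ∑ i, v i • f ((0 : Fin (m + 1)).succAbove i) ^ d = g ^ d * ∑ i, v i • h i.succ ^ d := by
            rw [Finset.mul_sum]
            refine Finset.sum_congr rfl fun i _ => ?_
            rw [Fin.succAbove_zero, hh, mul_pow, smul_eq_C_mul, smul_eq_C_mul]
            ring
          rw [this, hv, mul_zero]
        have hdeg := core hm d ((Nat.pow_le_pow_left (Nat.le_succ m) 2).trans hd) h hh0 c hz hsum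
          hli hsp
        obtain ⟨x, hx⟩ := natDegree_eq_zero.1 (hdeg 0)
        obtain ⟨y, hy⟩ := natDegree_eq_zero.1 (hdeg (Fin.last m))
        have hy0 : y ≠ 0 := by
          rintro rfl
          apply hh0 (Fin.last m)
          rw [← hy, C_0]
        apply hprop 0 (Fin.last m) _ (x / y)
        · rw [hh 0, hh (Fin.last m), ← hx, ← hy]
          have : C (x / y) * C y = (C x : K[X]) := by rw [← C_mul, div_mul_cancel₀ _ hy0]
          rw [← this]; ring
        · intro h0
          have := congrArg Fin.val h0
          simp at this
          omega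

end Q261.OP
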