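import Mathlib

/-!
Sums of few powers of 4, and the set of the numbers `4 ^ (4 ^ k)`.
-/

namespace Q261.OP

open Multiset

lemma cnt (s : Multiset ℕ) (hs : card s ≤ 3) (y : ℕ) :
    ((s.map (fun x => 4 ^ x)).sum / 4 ^ y) % 4 = s.count y := by
  have h1 : s = s.filter (fun x => x < y) + (s.filter (fun x => x = y) + s.filter (fun x => y < x)) := by
    ext a
    simp only [count_add, count_filter]
    rcases lt_trichotomy a y with h | h | h
    · rw [if_pos h, if_neg (by omega), if_neg (by omega)]; rfl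
    · rw [if_neg (by omega), if_pos h, if_neg (by omega)]; omega
    · rw [if_neg (by omega), if_neg (by omega), if_pos h]; omega
  have h2 : s.filter (fun x => x = y) = replicate (s.count y) y := by
    rw [Multiset.filter_eq']
  have h3 : ((s.filter (fun x => x < y)).map (fun x => 4 ^ x)).sum < 4 ^ y := by
    rcases Nat.eq_zero_or_pos y with h | h
    · subst h
      have : s.filter (fun x => x < 0) = 0 := by
        rw [Multiset.filter_eq_nil]; intro a _; omega
      rw [this]; simp
    · have h4 : ((s.filter (fun x => x < y)).map (fun x => 4 ^ x)).sum ≤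
          card ((s.filter (fun x => x < y)).map (fun x => 4 ^ x)) • 4 ^ (y - 1) := by
        apply Multiset.sum_le_card_nsmul
        intro x hx
        rw [Multiset.mem_map] at hx
        obtain ⟨a, ha, rfl⟩ := hx
        rw [Multiset.mem_filter] at ha
        exact Nat.pow_le_pow_right (by norm_num) (by omega)
      have h5 : card ((s.filter (fun x => x < y)).map (fun x => 4 ^ x)) ≤ 3 := by
        rw [Multiset.card_map]
        exact (Multiset.card_le_card (Multiset.filter_le _ _)).trans hs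
      have h6 : 4 ^ y = 4 * 4 ^ (y - 1) := by
        rw [← pow_succ']; congr 1; omega
      rw [h6]
      refine lt_of_le_of_lt h4 ?_
      rw [smul_eq_mul]
      have : 0 < 4 ^ (y - 1) := by positivity
      nlinarith
  obtain ⟨h, hh⟩ : (4 ^ (y + 1)) ∣ ((s.filter (fun x => y < x)).map (fun x => 4 ^ x)).sum := by
    apply Multiset.dvd_sum
    intro a ha
    rw [Multiset.mem_map] at ha
    obtain ⟨b, hb, rfl⟩ := ha
    rw [Multiset.mem_filter] at hb
    exact pow_dvd_pow _ (by omega)
  have hc : s.count y ≤ 3 := (Multiset.count_le_card y s).trans hs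
  have hsum : (s.map (fun x => 4 ^ x)).sum =
      ((s.filter (fun x => x < y)).map (fun x => 4 ^ x)).sum + 4 ^ y * (s.count y + 4 * h) := by
    conv_lhs => rw [h1, Multiset.map_add, Multiset.sum_add, Multiset.map_add, Multiset.sum_add, hh, h2,
      Multiset.map_replicate, Multiset.sum_replicate, smul_eq_mul]
    rw [pow_succ]; ring
  rw [hsum, Nat.add_mul_div_left _ _ (by positivity), Nat.div_eq_of_lt h3, zero_add]
  omega

lemma sums_eq (s t : Multiset ℕ) (hs : card s ≤ 3) (ht : card t ≤ 3)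
    (h : (s.map (fun x => 4 ^ x)).sum = (t.map (fun x => 4 ^ x)).sum) : s = t := by
  ext y
  rw [← cnt s hs y, ← cnt t ht y, h]

lemma two_sums {a b c d : ℕ} (h : 4 ^ a + 4 ^ b = 4 ^ c + 4 ^ d) :
    (a = c ∧ b = d) ∨ (a = d ∧ b = c) := by
  have h1 := sums_eq {a, b} {c, d} (by simp) (by simp) (by simpa using h)
  have h2 : (s(a, b) : Sym2 ℕ) = s(c, d) := by
    rw [Sym2.eq_iff]
    have ha : a ∈ ({c, d} : Multiset ℕ) := by rw [← h1]; simp
    simp only [Multiset.insert_eq_cons, Multiset.mem_cons, Multiset.mem_singleton] at ha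
    rcases ha with ha | ha
    · subst ha
      left
      refine ⟨rfl, ?_⟩
      simpa using h1
    · subst ha
      right
      refine ⟨rfl, ?_⟩
      rw [Multiset.pair_comm c a] at h1
      simpa using h1
  rwa [Sym2.eq_iff] at h2

lemma three_sums {e1 e2 e3 f1 f2 f3 : ℕ}
    (h : 4 ^ e1 + (4 ^ e2 + 4 ^ e3) = 4 ^ f1 + (4 ^ f2 + 4 ^ f3)) :
    e1 = f1 ∨ e1 = f2 ∨ e1 = f3 := by
  have h1 := sums_eq {e1, e2, e3} {f1, f2, f3} (by simp) (by simp) (by simpa using h)
  have ha : e1 ∈ ({f1, f2, f3} : Multiset ℕ) := by rw [← h1]; simp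
  simpa using ha

/-- the numbers `4 ^ (4 ^ k)` -/
def A (k : ℕ) : ℕ := 4 ^ (4 ^ k)

lemma A_inj {k l : ℕ} (h : A k = A l) : k = l :=
  Nat.pow_right_injective (le_refl 2 |>.trans (by norm_num)) (Nat.pow_right_injective (by norm_num) h)

lemma A_affine {k1 k2 k3 l1 l2 l3 : ℕ} (hk12 : k1 ≠ k2) (hk13 : k1 ≠ k3) (hk23 : k2 ≠ k3)
    (hl12 : l1 ≠ l2)
    (h : ((A k3 : ℤ) - A k1) * ((A l2 : ℤ) - A l1) = ((A l3 : ℤ) - A l1) * ((A k2 : ℤ) - A k1)) :
    k3 = l3 ∧ k2 = l2 := by
  have h1 : A k3 * A l2 + (A l3 * A k1 + A l1 * A k2) = A l3 * A k2 + (A k3 * A l1 + A k1 * A l2) := by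
    have : ((A k3 * A l2 + (A l3 * A k1 + A l1 * A k2) : ℕ) : ℤ) =
        ((A l3 * A k2 + (A k3 * A l1 + A k1 * A l2) : ℕ) : ℤ) := by
      push_cast
      linear_combination h
    exact_mod_cast this
  simp only [A, ← pow_add] at h1
  rcases three_sums h1 with h2 | h2 | h2
  · rcases two_sums h2 with h3 | h3
    · exact ⟨h3.1, h3.2.symm⟩
    · exact absurd h3.1.symm hk23
  · rcases two_sums h2 with h3 | h3
    · exact absurd h3.2.symm hl12
    · exact absurd (h3.1.symm.trans h3.2.symm) (fun h => hl12 h)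
  · rcases two_sums h2 with h3 | h3
    · exact absurd h3.1.symm hk13
    · exact absurd (h3.2.symm.trans h3.1.symm) (fun h => hk13 h)

end Q261.OP
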