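import Pool.Agent.Q261.OP.Mv
import Pool.Agent.Q261.OP.Num

/-!
One polynomial determines all non-degenerate endomorphisms (proof found by helper36).
-/

open Finset

namespace Q261.OP

open MvPolynomial

variable {K : Type*} [Field K] [CharZero K] {n : ℕ}

/-- not a constant -/
def NC (y : MvPolynomial (Fin n) K) : Prop := ∀ c : K, y ≠ C c

lemma NC.ne_zero {y : MvPolynomial (Fin n) K} (h : NC y) : y ≠ 0 := by
  have := h 0
  rwa [C_0] at this

lemma NC.eq_of {y : MvPolynomial (Fin n) K} (h : NC y) {a b c : K}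
    (h1 : C a * y = C b * y + C c) : a = b := by
  by_contra hne
  have hab : a - b ≠ 0 := sub_ne_zero.2 hne
  apply h (c / (a - b))
  have h2 : C (a - b) * y = C c := by rw [C_sub, sub_mul, h1]; ring
  have h3 : C ((a - b)⁻¹) * (C (a - b) * y) = y := by
    rw [← mul_assoc, ← C_mul, inv_mul_cancel₀ hab, C_1, one_mul]
  rw [← h3, h2, ← C_mul, div_eq_inv_mul]

lemma NC.add_C {y : MvPolynomial (Fin n) K} (h : NC y) (a : K) : NC (y + C a) := by
  intro c hc
  apply h (c - a)
  rw [C_sub, ← hc]; ring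

/-- For `z ≠ y`, at most two of the shifts of `y` are proportional to a shift of `z`. -/
lemma bad_card (M : ℕ) (y z : MvPolynomial (Fin n) K) (hy : NC y) (hz : z ≠ y)
    [DecidablePred fun k : Fin M => ∃ (l : Fin M) (a : K), a ≠ 0 ∧
      z + C ((A l : ℕ) : K) = C a * (y + C ((A k : ℕ) : K))] :
    #{k : Fin M | ∃ (l : Fin M) (a : K), a ≠ 0 ∧
      z + C ((A l : ℕ) : K) = C a * (y + C ((A k : ℕ) : K))} ≤ 2 := by
  by_contra hcon
  push Not at hcon
  obtain ⟨k1, h1, k2, h2, k3, h3, h12, h13, h23⟩ := Finset.two_lt_card.1 hcon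
  rw [Finset.mem_filter] at h1 h2 h3
  obtain ⟨-, l1, a1, ha1, e1⟩ := h1
  obtain ⟨-, l2, a2, ha2, e2⟩ := h2
  obtain ⟨-, l3, a3, ha3, e3⟩ := h3
  have e12 : a1 = a2 := hy.eq_of (c := ((A l1 : ℕ) : K) - (A l2 : ℕ) - a1 * (A k1 : ℕ) + a2 * (A k2 : ℕ)) (by
    simp only [C_add, C_sub, C_mul]
    linear_combination e2 - e1)
  have e13 : a1 = a3 := hy.eq_of (c := ((A l1 : ℕ) : K) - (A l3 : ℕ) - a1 * (A k1 : ℕ) + a3 * (A k3 : ℕ)) (by
    simp only [C_add, C_sub, C_mul]
    linear_combination e3 - e1)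
  subst e12
  subst e13
  have f2 : ((A l2 : ℕ) : K) - (A l1 : ℕ) = a1 * ((A k2 : ℕ) - (A k1 : ℕ)) := by
    apply C_injective (Fin n) K
    simp only [C_sub, C_mul]
    linear_combination e2 - e1
  have f3 : ((A l3 : ℕ) : K) - (A l1 : ℕ) = a1 * ((A k3 : ℕ) - (A k1 : ℕ)) := by
    apply C_injective (Fin n) K
    simp only [C_sub, C_mul]
    linear_combination e3 - e1
  have hl12 : (l1 : ℕ) ≠ l2 := by
    intro h
    rw [h, sub_self] at f2
    rcases mul_eq_zero.1 f2.symm with h | h
    · exact ha1 h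
    · have h' : A k2 = A k1 := by exact_mod_cast sub_eq_zero.1 h
      exact h12 (Fin.ext (A_inj h').symm)
  have hmain : ((A k3 : ℤ) - A k1) * ((A l2 : ℤ) - A l1) = ((A l3 : ℤ) - A l1) * ((A k2 : ℤ) - A k1) := by
    have : ((((A k3 : ℤ) - A k1) * ((A l2 : ℤ) - A l1) : ℤ) : K) =
        ((((A l3 : ℤ) - A l1) * ((A k2 : ℤ) - A k1) : ℤ) : K) := by
      push_cast
      rw [f2, f3]; ring
    exact_mod_cast this
  obtain ⟨g3, g2⟩ := A_affine (fun h => h12 (Fin.ext h)) (fun h => h13 (Fin.ext h))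
    (fun h => h23 (Fin.ext h)) hl12 hmain
  have f23 : ((A k3 : ℕ) : K) - (A k2 : ℕ) = a1 * ((A k3 : ℕ) - (A k2 : ℕ)) := by
    have : ((A l3 : ℕ) : K) - (A l2 : ℕ) = a1 * ((A k3 : ℕ) - (A k2 : ℕ)) := by
      linear_combination f3 - f2
    rwa [← g3, ← g2] at this
  have hA : ((A k3 : ℕ) : K) - (A k2 : ℕ) ≠ 0 := by
    intro h
    have h' : A k3 = A k2 := by exact_mod_cast sub_eq_zero.1 h
    exact h23 (Fin.ext (A_inj h').symm)
  have ha : a1 = 1 := by
    have : (a1 - 1) * (((A k3 : ℕ) : K) - (A k2 : ℕ)) = 0 := by linear_combination -f23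
    exact sub_eq_zero.1 ((mul_eq_zero.1 this).resolve_right hA)
  subst ha
  apply hz
  rw [← g2, C_1, one_mul] at e2
  exact add_right_cancel e2

/-- the exponents of the weights -/
def wt (n : ℕ) (j : Fin n × Fin n) : ℕ := (finProdFinEquiv j : ℕ)

lemma wt_inj : Function.Injective (wt n) := fun _ _ h => finProdFinEquiv.injective (Fin.ext h)

/-- the value of the polynomial at `u` -/
noncomputable def val (K : Type*) [Field K] (n M d : ℕ) (u : Fin n → MvPolynomial (Fin n) K) :
    MvPolynomial (Fin n) K :=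
  ∑ j : Fin n × Fin n, C ((2 : K) ^ wt n j) * ∑ k : Fin M, (u j.1 + u j.2 + C ((A k : ℕ) : K)) ^ d

lemma sum3 {β : Type*} [AddCommMonoid β] {M : ℕ} (G : Bool × (Fin n × Fin n) × Fin M → β) :
    ∑ i, G i = (∑ j : Fin n × Fin n, ∑ k : Fin M, G (true, j, k)) +
      ∑ j : Fin n × Fin n, ∑ k : Fin M, G (false, j, k) := by
  rw [Fintype.sum_prod_type, Fintype.sum_bool]
  congr 1
  · exact Fintype.sum_prod_type _
  · exact Fintype.sum_prod_type _

theorem key (u v : Fin n → MvPolynomial (Fin n) K) (M d : ℕ) (hM : 4 * (n * n) + 1 ≤ M)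
    (hd1 : 1 ≤ d) (hd : (2 * (n * n * M)) ^ 2 ≤ d) (h : val K n M d u = val K n M d v)
    (j0 : Fin n × Fin n) (hy : NC (u j0.1 + u j0.2)) : v j0.1 + v j0.2 = u j0.1 + u j0.2 := by
  classical
  set y := u j0.1 + u j0.2 with hyd
  let Z : Bool × (Fin n × Fin n) → MvPolynomial (Fin n) K :=
    fun w => if w.1 = true then u w.2.1 + u w.2.2 else v w.2.1 + v w.2.2
  let F : Bool × (Fin n × Fin n) × Fin M → MvPolynomial (Fin n) K :=
    fun i => Z (i.1, i.2.1) + C ((A i.2.2 : ℕ) : K)
  let c : Bool × (Fin n × Fin n) × Fin M → K :=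
    fun i => (if i.1 = true then 1 else -1) * (2 : K) ^ wt n i.2.1
  have hsum : ∑ i, C (c i) * F i ^ d = 0 := by
    rw [sum3]
    simp only [c, F, Z, if_true, Bool.false_eq_true, if_false, one_mul, neg_mul, C_neg,
      Finset.sum_neg_distrib, ← Finset.mul_sum]
    unfold val at h
    rw [h]
    exact add_neg_cancel _
  -- a good shift
  obtain ⟨k, hk⟩ : ∃ k : Fin M, ∀ w, Z w ≠ y → ¬ ∃ (l : Fin M) (a : K), a ≠ 0 ∧
      Z w + C ((A l : ℕ) : K) = C a * (y + C ((A k : ℕ) : K)) := by
    by_contra hcon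
    push Not at hcon
    have hsub : (Finset.univ : Finset (Fin M)) ⊆
        (Finset.univ.filter (fun w => Z w ≠ y)).biUnion (fun w => Finset.univ.filter
          (fun k : Fin M => ∃ (l : Fin M) (a : K), a ≠ 0 ∧
            Z w + C ((A l : ℕ) : K) = C a * (y + C ((A k : ℕ) : K)))) := by
      intro k _
      obtain ⟨w, hw, l, a, ha, h1⟩ := hcon k
      rw [Finset.mem_biUnion]
      exact ⟨w, by simpa using hw, by rw [Finset.mem_filter]; exact ⟨Finset.mem_univ _, l, a, ha, h1⟩⟩
    have h1 := Finset.card_le_card hsub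
    have h2 := Finset.card_biUnion_le_card_mul (Finset.univ.filter (fun w => Z w ≠ y)) (fun w => Finset.univ.filter
          (fun k : Fin M => ∃ (l : Fin M) (a : K), a ≠ 0 ∧
            Z w + C ((A l : ℕ) : K) = C a * (y + C ((A k : ℕ) : K)))) 2 (by
      intro w hw
      exact bad_card M y (Z w) hy (Finset.mem_filter.1 hw).2)
    have h3 : (Finset.univ.filter (fun w => Z w ≠ y)).card ≤ 2 * (n * n) := by
      refine (Finset.card_le_univ _).trans ?_
      simp
    rw [Finset.card_univ, Fintype.card_fin] at h1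
    have := h1.trans h2
    omega
  have hAinj : ∀ l : Fin M, ((A l : ℕ) : K) = ((A k : ℕ) : K) → l = k := by
    intro l hl
    have h' : A l = A k := by exact_mod_cast hl
    exact Fin.ext (A_inj h')
  have hFf : ∀ i, F i = y + C ((A k : ℕ) : K) ↔ (Z (i.1, i.2.1) = y ∧ i.2.2 = k) := by
    intro i
    constructor
    · intro h1
      by_cases hz : Z (i.1, i.2.1) = y
      · refine ⟨hz, ?_⟩
        simp only [F, hz] at h1
        exact hAinj _ (C_injective _ _ (add_left_cancel h1))
      · exfalso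
        exact hk _ hz ⟨i.2.2, 1, one_ne_zero, by rw [C_1, one_mul]; exact h1⟩
    · rintro ⟨h1, h2⟩
      simp only [F, h1, h2]
  have hcs := class_sum F c d hd1 (by
      refine le_trans (Nat.pow_le_pow_left (le_of_eq ?_) 2) hd
      simp) hsum (y + C ((A k : ℕ) : K)) (hy.add_C _).ne_zero (by
    intro i
    by_cases hz : Z (i.1, i.2.1) = y
    · by_cases hl : i.2.2 = k
      · exact Or.inl ((hFf i).2 ⟨hz, hl⟩)
      · right; right
        intro a ha
        simp only [F, hz] at ha
        have h1 : (1 : K) = a := hy.eq_of (c := a * ((A k : ℕ) : K) - ((A i.2.2 : ℕ) : K)) (by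
          simp only [C_sub, C_mul, C_1]
          linear_combination ha)
        subst h1
        rw [C_1, one_mul] at ha
        exact hl (hAinj _ (C_injective _ _ (add_left_cancel ha)))
    · by_cases h0 : F i = 0
      · exact Or.inr (Or.inl h0)
      · right; right
        intro a ha
        have ha0 : a ≠ 0 := by
          rintro rfl
          apply h0
          rw [ha, C_0, zero_mul]
        exact hk _ hz ⟨i.2.2, a, ha0, ha⟩)
  have hU : ∑ j with u j.1 + u j.2 = y, (2 : K) ^ wt n j = ∑ j with v j.1 + v j.2 = y, (2 : K) ^ wt n j := by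
    rw [Finset.sum_filter] at hcs
    simp only [hFf] at hcs
    rw [sum3] at hcs
    simp only [c, Z, if_true, Bool.false_eq_true, if_false, one_mul, ite_and] at hcs
    rw [Finset.sum_filter, Finset.sum_filter, ← sub_eq_zero, sub_eq_add_neg,
      ← Finset.sum_neg_distrib]
    refine Eq.trans ?_ hcs
    congr 1
    · refine Finset.sum_congr rfl fun j _ => ?_
      split_ifs with h1 <;> simp
    · refine Finset.sum_congr rfl fun j _ => ?_
      split_ifs with h1 <;> simp
  have hU' : ∑ j with u j.1 + u j.2 = y, 2 ^ wt n j = ∑ j with v j.1 + v j.2 = y, 2 ^ wt n j := by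
    exact_mod_cast hU
  have hmap : (Finset.univ.filter (fun j : Fin n × Fin n => u j.1 + u j.2 = y)).map ⟨wt n, wt_inj⟩ =
      (Finset.univ.filter (fun j : Fin n × Fin n => v j.1 + v j.2 = y)).map ⟨wt n, wt_inj⟩ := by
    apply Finset.geomSum_injective (n := 2) le_rfl
    simp only [Finset.sum_map, Function.Embedding.coeFn_mk]
    exact hU'
  have h2 := Finset.map_injective _ hmap
  have h3 : j0 ∈ Finset.univ.filter (fun j : Fin n × Fin n => v j.1 + v j.2 = y) := by
    rw [← h2, Finset.mem_filter]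
    exact ⟨Finset.mem_univ _, hyd.symm⟩
  exact (Finset.mem_filter.1 h3).2

theorem eq_of_val (u v : Fin n → MvPolynomial (Fin n) K) (M d : ℕ) (hM : 4 * (n * n) + 1 ≤ M)
    (hd1 : 1 ≤ d) (hd : (2 * (n * n * M)) ^ 2 ≤ d) (h : val K n M d u = val K n M d v)
    (i : Fin n) (hi : NC (u i)) : u = v := by
  have h2 : ∀ l, NC (u l) → v l = u l := by
    intro l hl
    have h1 : NC (u l + u l) := by
      intro c hc
      apply hl (c / 2)
      have h3 : C (2⁻¹ : K) * (u l + u l) = u l := by
        rw [← two_mul, ← mul_assoc]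
        have : (C (2⁻¹ : K) : MvPolynomial (Fin n) K) * 2 = 1 := by
          have h4 : (2 : MvPolynomial (Fin n) K) = C 2 := (map_ofNat C 2).symm
          rw [h4, ← C_mul, inv_mul_cancel₀ (by norm_num), C_1]
        rw [this, one_mul]
      rw [← h3, hc, ← C_mul, div_eq_inv_mul]
    have h3 := key u v M d hM hd1 hd h (l, l) h1
    simp only [← two_mul] at h3
    exact mul_left_cancel₀ (by norm_num) h3
  have hvi := h2 i hi
  funext l
  by_cases h3 : NC (u i + u l)
  · have h4 := key u v M d hM hd1 hd h (i, l) h3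
    rw [hvi] at h4
    exact (add_left_cancel h4).symm
  · unfold NC at h3
    push Not at h3
    obtain ⟨c, hc⟩ := h3
    have h4 : NC (u l) := by
      intro a ha
      apply hi (c - a)
      rw [C_sub, ← hc, ← ha]; ring
    exact (h2 l h4).symm

theorem main (K : Type*) [Field K] [CharZero K] (n : ℕ) : ∃ p : MvPolynomial (Fin n) K,
    ∀ φ ψ : MvPolynomial (Fin n) K →ₐ[K] MvPolynomial (Fin n) K,
      (∃ q, ∀ c : K, φ q ≠ C c) → φ p = ψ p → φ = ψ := by
  set M : ℕ := 4 * (n * n) + 1 with hM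
  set d : ℕ := (2 * (n * n * M)) ^ 2 + 1 with hd
  refine ⟨val K n M d X, ?_⟩
  have hval : ∀ φ : MvPolynomial (Fin n) K →ₐ[K] MvPolynomial (Fin n) K,
      φ (val K n M d X) = val K n M d (fun i => φ (X i)) := by
    intro φ
    unfold val
    simp only [map_sum, map_mul, map_pow, map_add, algHom_C, algebraMap_eq]
  intro φ ψ hφ h
  rw [hval, hval] at h
  obtain ⟨i, hi⟩ : ∃ i, NC (φ (X i)) := by
    by_contra hcon
    unfold NC at hcon
    push Not at hcon
    choose a ha using hcon
    obtain ⟨q, hq⟩ := hφ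
    apply hq (eval a q)
    have : φ = (Algebra.ofId K (MvPolynomial (Fin n) K)).comp (aeval a) := by
      ext i
      simp [ha, Algebra.ofId_apply, algebraMap_eq]
    rw [this]
    simp [Algebra.ofId_apply, algebraMap_eq]
  have h1 := eq_of_val _ _ M d hM.ge (by omega) (by omega) h i hi
  exact algHom_ext fun i => congrFun h1 i

end Q261.OP
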