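import Pool.Agent.Q261.OP.Core

/-!
Independence of large powers in several variables (Kronecker substitution), and the splitting of a
relation into proportionality classes.
-/

open Finset

namespace Q261.OP

variable {K : Type*} [Field K] {n : ℕ}

/-- the substitution `x_i ↦ X ^ (N ^ i)` -/
noncomputable def kron (K : Type*) [Field K] (n N : ℕ) :
    MvPolynomial (Fin n) K →ₐ[K] Polynomial K :=
  MvPolynomial.aeval (fun i : Fin n => (Polynomial.X : Polynomial K) ^ (N ^ (i : ℕ)))

lemma kron_ne_zero (q : MvPolynomial (Fin n) K) (hq : q ≠ 0) (N : ℕ) (hN : q.totalDegree < N) :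
    kron K n N q ≠ 0 := by
  classical
  have h1 : kron K n N q = ∑ s ∈ q.support, Polynomial.C (q.coeff s) *
      Polynomial.X ^ (∑ i : Fin n, s i * N ^ (i : ℕ)) := by
    unfold kron
    rw [MvPolynomial.aeval_def, MvPolynomial.eval₂_eq']
    refine Finset.sum_congr rfl fun s _ => ?_
    congr 1
    simp only [← pow_mul]
    rw [Finset.prod_pow_eq_pow_sum]
    congr 1
    exact Finset.sum_congr rfl fun i _ => mul_comm _ _
  obtain ⟨s0, hs0⟩ : ∃ s, s ∈ q.support := by
    by_contra hcon
    push Not at hcon
    exact hq (MvPolynomial.support_eq_empty.1 (Finset.eq_empty_of_forall_notMem hcon))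
  have hlt : ∀ s ∈ q.support, ∀ i, s i < N := by
    intro s hs i
    exact ((MvPolynomial.monomial_le_degreeOf i hs).trans
      (MvPolynomial.degreeOf_le_totalDegree q i)).trans_lt hN
  have hinj : ∀ s ∈ q.support, (∑ i : Fin n, s i * N ^ (i : ℕ)) = ∑ i : Fin n, s0 i * N ^ (i : ℕ) →
      s = s0 := by
    intro s hs h
    have h2 : (fun i => (⟨s i, hlt s hs i⟩ : Fin N)) = fun i => ⟨s0 i, hlt s0 hs0 i⟩ := by
      apply finFunctionFinEquiv.injective
      apply Fin.ext
      rw [finFunctionFinEquiv_apply, finFunctionFinEquiv_apply]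
      exact h
    ext i
    have := congrFun h2 i
    simpa using this
  intro h0
  have h2 : (kron K n N q).coeff (∑ i : Fin n, s0 i * N ^ (i : ℕ)) = q.coeff s0 := by
    rw [h1, Polynomial.finset_sum_coeff]
    rw [Finset.sum_eq_single s0]
    · simp
    · intro s hs hne
      rw [Polynomial.coeff_C_mul_X_pow, if_neg]
      intro h
      exact hne (hinj s hs h.symm)
    · intro h; exact absurd hs0 h
  rw [h0, Polynomial.coeff_zero] at h2
  exact (MvPolynomial.mem_support_iff.1 hs0) h2.symm

theorem indep_mv [CharZero K] {ι : Type*} [Fintype ι] (F : ι → MvPolynomial (Fin n) K)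
    (hne : ∀ i, F i ≠ 0) (hprop : ∀ i j, i ≠ j → ∀ c : K, F i ≠ MvPolynomial.C c * F j) (d : ℕ)
    (hd : (Fintype.card ι) ^ 2 ≤ d) : LinearIndependent K (fun i => F i ^ d) := by
  classical
  set N : ℕ := 1 + ∑ i, (F i).totalDegree with hN
  have hdeg : ∀ i, (F i).totalDegree < N := by
    intro i
    have := Finset.single_le_sum (f := fun i => (F i).totalDegree) (fun _ _ => Nat.zero_le _)
      (Finset.mem_univ i)
    omega
  have e := Fintype.equivFin ι
  have h1 : LinearIndependent K (fun b : Fin (Fintype.card ι) => kron K n N (F (e.symm b)) ^ d) := by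
    apply indep_fin _ _ _ _ d hd
    · intro b; exact kron_ne_zero _ (hne _) N (hdeg _)
    · intro a b hab c hc
      have h2 : F (e.symm a) - MvPolynomial.C c * F (e.symm b) ≠ 0 := by
        rw [sub_ne_zero]
        exact hprop _ _ (fun h => hab (e.symm.injective h)) c
      apply kron_ne_zero _ h2 N
      · refine (MvPolynomial.totalDegree_sub _ _).trans_lt (max_lt (hdeg _) ?_)
        refine (MvPolynomial.totalDegree_mul _ _).trans_lt ?_
        rw [MvPolynomial.totalDegree_C, zero_add]
        exact hdeg _
      · rw [map_sub, map_mul, hc]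
        have : kron K n N (MvPolynomial.C c) = Polynomial.C c := by
          unfold kron
          rw [MvPolynomial.aeval_C]; rfl
        rw [this, sub_self]
  have h2 : LinearIndependent K (fun b : Fin (Fintype.card ι) => F (e.symm b) ^ d) := by
    rw [Fintype.linearIndependent_iff] at h1 ⊢
    intro g hg
    apply h1 g
    have := congrArg (kron K n N) hg
    simpa using this
  have h3 := h2.comp e e.injective
  convert h3 using 1
  funext i
  simp

/-- A relation between `d`-th powers splits: the coefficients at one polynomial `f` add up to zero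
if no other polynomial of the family is proportional to `f`. -/
theorem class_sum [CharZero K] {ι : Type*} [Fintype ι] (F : ι → MvPolynomial (Fin n) K) (c : ι → K)
    (d : ℕ) (hd1 : 1 ≤ d) (hd : (Fintype.card ι) ^ 2 ≤ d)
    (h : ∑ i, MvPolynomial.C (c i) * F i ^ d = 0) (f : MvPolynomial (Fin n) K) (hf : f ≠ 0)
    (hcl : ∀ i, F i = f ∨ F i = 0 ∨ ∀ a : K, F i ≠ MvPolynomial.C a * f) [DecidableEq ι]
    [DecidablePred fun i => F i = f] :
    ∑ i with F i = f, c i = 0 := by
  classical
  by_cases hex : ∃ i0, F i0 = f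
  swap
  · push Not at hex
    rw [Finset.filter_false_of_mem (fun i _ => hex i), Finset.sum_empty]
  obtain ⟨i0, hi0⟩ := hex
  let S := {i : ι // F i ≠ 0}
  let st : Setoid S :=
    { r := fun i j => ∃ a : K, a ≠ 0 ∧ F i = MvPolynomial.C a * F j
      iseqv := by
        refine ⟨fun i => ⟨1, one_ne_zero, by simp⟩, ?_, ?_⟩
        · rintro i j ⟨a, ha, h1⟩
          refine ⟨a⁻¹, inv_ne_zero ha, ?_⟩
          rw [h1, ← mul_assoc, ← MvPolynomial.C_mul, inv_mul_cancel₀ ha, MvPolynomial.C_1, one_mul]
        · rintro i j k ⟨a, ha, h1⟩ ⟨b, hb, h2⟩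
          exact ⟨a * b, mul_ne_zero ha hb, by rw [h1, h2, MvPolynomial.C_mul, mul_assoc]⟩ }
  let Q := Quotient st
  have hrep : ∀ i : S, ∃ a : K, a ≠ 0 ∧
      F i = MvPolynomial.C a * F ((Quotient.mk st i).out : S) := by
    intro i
    have h1 : st.r i ((Quotient.mk st i).out) := by
      apply Setoid.symm'
      exact Quotient.mk_out (s := st) i
    exact h1
  choose a ha0 ha using hrep
  have hind : LinearIndependent K (fun q : Q => F (q.out : S) ^ d) := by
    apply indep_mv _ (fun q => (q.out).2) _ d
    · refine (Nat.pow_le_pow_left ?_ 2).trans hd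
      exact (Fintype.card_quotient_le st).trans (Fintype.card_subtype_le _)
    · intro p q hpq b hb
      apply hpq
      have hb0 : b ≠ 0 := by
        rintro rfl
        exact (p.out).2 (by rw [hb]; simp)
      have h1 : st.r p.out q.out := ⟨b, hb0, hb⟩
      have h2 : Quotient.mk st p.out = Quotient.mk st q.out := Quotient.sound h1
      rwa [Quotient.out_eq, Quotient.out_eq] at h2
  have hrel : ∑ q : Q, (∑ i : S with Quotient.mk st i = q, c i * a i ^ d) • F (q.out : S) ^ d = 0 := by
    have h1 : ∑ i : S, MvPolynomial.C (c i) * F i ^ d = 0 := by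
      refine Eq.trans ?_ h
      have h3 : ∑ i : ι with F i ≠ 0, MvPolynomial.C (c i) * F i ^ d =
          ∑ i : ι, MvPolynomial.C (c i) * F i ^ d := by
        apply Finset.sum_filter_of_ne
        intro i _ hi h0
        apply hi
        rw [h0, zero_pow (by omega), mul_zero]
      rw [← h3, ← Finset.sum_subtype (Finset.univ.filter (fun i : ι => F i ≠ 0)) (p := fun i => F i ≠ 0)
        (by intro x; simp) (fun i => MvPolynomial.C (c i) * F i ^ d)]
    refine Eq.trans ?_ h1
    rw [← Finset.sum_fiberwise (s := (Finset.univ : Finset S)) (g := fun i => Quotient.mk st i)]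
    refine Finset.sum_congr rfl fun q _ => ?_
    rw [Finset.sum_smul]
    refine Finset.sum_congr rfl fun i hi => ?_
    rw [Finset.mem_filter] at hi
    conv_rhs => rw [ha i, hi.2]
    rw [MvPolynomial.smul_eq_C_mul, MvPolynomial.C_mul, mul_pow, MvPolynomial.C_pow]
    ring
  have h0 := Fintype.linearIndependent_iff.1 hind _ hrel (Quotient.mk st ⟨i0, by rw [hi0]; exact hf⟩)
  set s0 : S := ⟨i0, by rw [hi0]; exact hf⟩ with hs0
  have hmem : ∀ i : S, Quotient.mk st i = Quotient.mk st s0 ↔ F i = f := by
    intro i
    constructor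
    · intro h1
      obtain ⟨b, hb, h2⟩ := Quotient.exact h1
      rcases hcl i with h3 | h3 | h3
      · exact h3
      · exact absurd h3 i.2
      · exact absurd (h2.trans (by rw [hs0]; simp only [hi0])) (h3 b)
    · intro h1
      apply Quotient.sound
      exact ⟨1, one_ne_zero, by rw [h1, hs0]; simp [hi0]⟩
  have hconst : ∀ i : S, F i = f → a i = a s0 := by
    intro i hi
    have e1 := ha i
    have e2 := ha s0
    rw [(hmem i).2 hi, hi] at e1
    have e3 : F (s0 : ι) = f := hi0
    rw [e3] at e2
    have e4 : MvPolynomial.C (a i - a s0) * F ((Quotient.mk st s0).out : S) = 0 := by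
      rw [MvPolynomial.C_sub, sub_mul, ← e1, ← e2, sub_self]
    rcases mul_eq_zero.1 e4 with e5 | e5
    · rw [MvPolynomial.C_eq_zero] at e5
      exact sub_eq_zero.1 e5
    · exact absurd e5 ((Quotient.mk st s0).out).2
  have h4 : (∑ i : ι with F i = f, c i) * a s0 ^ d = 0 := by
    rw [← h0, Finset.sum_mul]
    have h5 : ∑ i : S with Quotient.mk st i = Quotient.mk st s0, c i * a i ^ d =
        (Finset.univ.filter (fun i : S => F i.1 = f)).sum (fun i : S => c i.1 * a s0 ^ d) := by
      apply Finset.sum_congr
      · ext i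
        simp only [Finset.mem_filter, Finset.mem_univ, true_and]
        exact hmem i
      · intro i hi
        rw [Finset.mem_filter] at hi
        rw [hconst i hi.2]
    rw [h5]
    symm
    apply Finset.sum_nbij (fun i : S => (i : ι))
    · intro i hi
      rw [Finset.mem_filter] at hi ⊢
      exact ⟨Finset.mem_univ _, hi.2⟩
    · intro i _ j _ hij
      exact Subtype.ext hij
    · intro i hi
      rw [Finset.mem_coe, Finset.mem_filter] at hi
      refine ⟨⟨i, by rw [hi.2]; exact hf⟩, ?_, rfl⟩
      rw [Finset.mem_coe, Finset.mem_filter]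
      exact ⟨Finset.mem_univ _, hi.2⟩
    · intro i _; rfl
  exact (mul_eq_zero.1 h4).resolve_right (pow_ne_zero _ (ha0 _))

end Q261.OP
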