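import Mathlib

/-!
Univariate Wronskians over a field of characteristic zero (after Pool.Agent.H322R2.Wronsk).
-/

open Polynomial Finset

namespace Q261.OP

variable {K : Type*} [Field K] [CharZero K]

open scoped Classical

lemma ratio_const (f g : K[X]) (hg : g ≠ 0) (h : g * derivative f = f * derivative g) :
    ∃ c : K, f = C c * g := by
  classical
  set d := EuclideanDomain.gcd f g with hd
  have hd0 : d ≠ 0 := by
    intro h0
    exact hg (EuclideanDomain.gcd_eq_zero_iff.1 h0).2
  obtain ⟨f1, hf1⟩ := EuclideanDomain.gcd_dvd_left f g
  obtain ⟨g1, hg1⟩ := EuclideanDomain.gcd_dvd_right f g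
  rw [← hd] at hf1 hg1
  have hcop : IsCoprime f1 g1 := by
    obtain ⟨a, b, hab⟩ : ∃ a b, d = f * a + g * b :=
      ⟨_, _, EuclideanDomain.gcd_eq_gcd_ab f g⟩
    refine ⟨a, b, ?_⟩
    have : d * (a * f1 + b * g1) = d * 1 := by
      rw [mul_one]
      calc d * (a * f1 + b * g1) = (d * f1) * a + (d * g1) * b := by ring
        _ = f * a + g * b := by rw [← hf1, ← hg1]
        _ = d := hab.symm
    exact mul_left_cancel₀ hd0 this
  have hw : wronskian f1 g1 = 0 := by
    have h2 : d ^ 2 * wronskian f1 g1 = 0 := by
      have h3 : f * derivative g - derivative f * g = 0 := by rw [← h]; ring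
      rw [hf1, hg1] at h3
      simp only [derivative_mul] at h3
      unfold wronskian
      linear_combination h3
    rcases mul_eq_zero.1 h2 with h3 | h3
    · exact absurd (pow_eq_zero_iff (two_ne_zero)|>.1 h3) hd0
    · exact h3
  have hw2 := (IsCoprime.wronskian_eq_zero_iff hcop).1 hw
  have hf2 := natDegree_eq_zero_of_derivative_eq_zero hw2.1
  have hg2 := natDegree_eq_zero_of_derivative_eq_zero hw2.2
  rw [natDegree_eq_zero] at hf2 hg2
  obtain ⟨x, hx⟩ := hf2
  obtain ⟨y, hy⟩ := hg2
  have hy0 : y ≠ 0 := by
    rintro rfl
    apply hg
    rw [hg1, ← hy]; simp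
  refine ⟨x / y, ?_⟩
  rw [hf1, hg1, ← hx, ← hy]
  have : C (x / y) * C y = (C x : K[X]) := by
    rw [← C_mul, div_mul_cancel₀ _ hy0]
  rw [← this]; ring

lemma dep_of_rel {r : ℕ} (f : Fin r → K[X]) : ∀ s : ℕ, ∀ v : Fin r → K[X], v ≠ 0 →
    (univ.filter (fun j => v j ≠ 0)).card ≤ s →
    (∀ i < s, ∑ j, v j * derivative^[i] (f j) = 0) → ¬ LinearIndependent K f := by
  intro s
  induction s with
  | zero =>
    intro v hv hcard _
    exfalso
    apply hv
    have h0 : (univ.filter (fun j => v j ≠ 0)) = ∅ := Finset.card_eq_zero.1 (Nat.le_zero.1 hcard)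
    funext j
    by_contra hj
    have : j ∈ (univ.filter (fun j => v j ≠ 0)) := by
      rw [Finset.mem_filter]; exact ⟨Finset.mem_univ _, hj⟩
    rw [h0] at this
    exact absurd this (Finset.notMem_empty _)
  | succ s ih =>
    intro v hv hcard hrel
    obtain ⟨j0, hj0⟩ : ∃ j0, v j0 ≠ 0 := by
      by_contra hcon
      push Not at hcon
      exact hv (funext hcon)
    set v' : Fin r → K[X] := fun j => v j0 * derivative (v j) - v j * derivative (v j0) with hv'
    by_cases hz : v' = 0
    · have h1 : ∀ j, ∃ c : K, v j = C c * v j0 := by
        intro j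
        apply ratio_const _ _ hj0
        have := congrFun hz j
        simp only [hv', Pi.zero_apply] at this
        linear_combination this
      choose c hc using h1
      have hc0 : c j0 = 1 := by
        have := hc j0
        have h2 : (C (c j0) - 1) * v j0 = 0 := by linear_combination -this
        rcases mul_eq_zero.1 h2 with h3 | h3
        · have h4 : C (c j0) = (C 1 : K[X]) := by rw [C_1]; linear_combination h3
          exact C_injective h4
        · exact absurd h3 hj0
      intro hli
      rw [Fintype.linearIndependent_iff] at hli
      have h2 : ∑ j, c j • f j = 0 := by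
        have h3 := hrel 0 (Nat.succ_pos s)
        simp only [Function.iterate_zero, id_eq] at h3
        have h4 : v j0 * ∑ j, c j • f j = 0 := by
          rw [← h3, Finset.mul_sum]
          apply Finset.sum_congr rfl
          intro j _
          conv_rhs => rw [hc j]
          rw [smul_eq_C_mul]; ring
        rcases mul_eq_zero.1 h4 with h5 | h5
        · exact absurd h5 hj0
        · exact h5
      have := hli c h2 j0
      rw [hc0] at this
      exact one_ne_zero this
    · apply ih v' hz
      · have hsub : (univ.filter (fun j => v' j ≠ 0)) ⊆ (univ.filter (fun j => v j ≠ 0)).erase j0 := by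
          intro j hj
          rw [Finset.mem_filter] at hj
          rw [Finset.mem_erase, Finset.mem_filter]
          refine ⟨?_, Finset.mem_univ _, ?_⟩
          · rintro rfl
            apply hj.2
            simp only [hv']; ring
          · intro h0
            apply hj.2
            simp only [hv', h0]; simp
        have h1 := Finset.card_le_card hsub
        rw [Finset.card_erase_of_mem (by rw [Finset.mem_filter]; exact ⟨Finset.mem_univ _, hj0⟩)] at h1
        omega
      · intro i hi
        have e1 := hrel i (by omega)
        have e2 := hrel (i + 1) (by omega)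
        have e3 : derivative (∑ j, v j * derivative^[i] (f j)) = 0 := by rw [e1, derivative_zero]
        rw [derivative_sum] at e3
        simp only [derivative_mul, Finset.sum_add_distrib] at e3
        have e4 : ∑ j, v j * derivative (derivative^[i] (f j)) = 0 := by
          rw [← e2]
          apply Finset.sum_congr rfl
          intro j _
          rw [Function.iterate_succ_apply']
        rw [e4, add_zero] at e3
        have e5 : ∑ j, v' j * derivative^[i] (f j)
            = v j0 * ∑ j, derivative (v j) * derivative^[i] (f j)
              - derivative (v j0) * ∑ j, v j * derivative^[i] (f j) := by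
          rw [Finset.mul_sum, Finset.mul_sum, ← Finset.sum_sub_distrib]
          apply Finset.sum_congr rfl
          intro j _
          simp only [hv']; ring
        rw [e5, e3, e1]; ring

/-- Wronskian matrix -/
noncomputable def wmat {R : Type*} [CommRing R] {r : ℕ} (f : Fin r → R[X]) :
    Matrix (Fin r) (Fin r) R[X] :=
  Matrix.of fun i j => derivative^[(i : ℕ)] (f j)

lemma wmat_det_ne_zero {r : ℕ} (f : Fin r → K[X]) (hf : LinearIndependent K f) :
    (wmat f).det ≠ 0 := by
  intro h0
  obtain ⟨v, hv0, hv⟩ := Matrix.exists_mulVec_eq_zero_iff.2 h0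
  refine dep_of_rel f r v hv0 ?_ ?_ hf
  · refine (Finset.card_le_univ _).trans ?_
    simp
  · intro i hi
    have := congrFun hv ⟨i, hi⟩
    simp only [Matrix.mulVec, dotProduct, wmat, Matrix.of_apply, Pi.zero_apply] at this
    rw [← this]
    apply Finset.sum_congr rfl
    intro j _
    ring


end Q261.OP
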